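import Mathlib

set_option autoImplicit false

namespace Pool.Agent.Results.MP_0f7e3e_nt.NoMatrix

lemma int_step (x y z : ℤ) (h1 : x * y * z < 0) (h2 : 0 < (x + 1) * (y + 1) * (z + 1)) : False := by
  have key : ∀ w : ℤ, 0 ≤ w * (w + 1) := by
    intro w
    rcases le_or_gt 0 w with h | h
    · positivity
    · have : w + 1 ≤ 0 := by omega
      nlinarith
  have h3 : 0 ≤ (x * (x + 1)) * (y * (y + 1)) * (z * (z + 1)) :=
    mul_nonneg (mul_nonneg (key x) (key y)) (key z)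
  have h4 : (x * y * z) * ((x + 1) * (y + 1) * (z + 1)) < 0 := mul_neg_of_neg_of_pos h1 h2
  have h5 : (x * (x + 1)) * (y * (y + 1)) * (z * (z + 1))
      = (x * y * z) * ((x + 1) * (y + 1) * (z + 1)) := by ring
  linarith

lemma root_case (m1 m2 m3 t s P : ℤ) (e1 : m1 + m2 + m3 = s + 1)
    (e2 : m1 * m2 + m1 * m3 + m2 * m3 = s) (e3 : m1 * m2 * m3 = P)
    (hP : P = t ^ 2 * (t - s)) (hts : t * s < 0) : False := by
  apply int_step (t - m1) (t - m2) (t - m3)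
  · have : (t - m1) * (t - m2) * (t - m3) = t * s - t ^ 2 := by
      linear_combination (-t ^ 2) * e1 + t * e2 - e3 - hP
    rw [this]; nlinarith [sq_nonneg t]
  · have : (t - m1 + 1) * (t - m2 + 1) * (t - m3 + 1) = t * (t + 1) + t ^ 2 - t * s := by
      linear_combination (-(t + 1) ^ 2) * e1 + (t + 1) * e2 - e3 - hP
    rw [this]
    have : 0 ≤ t * (t + 1) := by
      rcases le_or_gt 0 t with h | h
      · positivity
      · have : t + 1 ≤ 0 := by omega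
        nlinarith
    nlinarith [sq_nonneg t]

lemma key (m1 m2 m3 n1 n2 n3 : ℤ) (h1 : n1 ≠ 0) (h2 : n2 ≠ 0) (h3 : n3 ≠ 0)
    (p1 : m1 + m2 + m3 = n1 + n2 + n3 + 1)
    (p2 : m1 ^ 2 + m2 ^ 2 + m3 ^ 2 = n1 ^ 2 + n2 ^ 2 + n3 ^ 2 + 1)
    (p3 : m1 ^ 3 + m2 ^ 3 + m3 ^ 3 = n1 ^ 3 + n2 ^ 3 + n3 ^ 3 + 1)
    (pp : m1 * m2 * m3 = n1 * n2 * n3) : False := by
  have hm2 : m1 * m2 + m1 * m3 + m2 * m3 = n1 * n2 + n1 * n3 + n2 * n3 + (n1 + n2 + n3) := by
    have : 2 * (m1 * m2 + m1 * m3 + m2 * m3)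
        = 2 * (n1 * n2 + n1 * n3 + n2 * n3 + (n1 + n2 + n3)) := by
      linear_combination (m1 + m2 + m3 + (n1 + n2 + n3 + 1)) * p1 - p2
    linarith
  have hn2 : n1 * n2 + n1 * n3 + n2 * n3 = 0 := by
    have hN : m1 ^ 3 + m2 ^ 3 + m3 ^ 3 = (m1 + m2 + m3) ^ 3
        - 3 * (m1 + m2 + m3) * (m1 * m2 + m1 * m3 + m2 * m3) + 3 * (m1 * m2 * m3) := by ring
    rw [p1, hm2, pp, p3] at hN
    have : 3 * (n1 * n2 + n1 * n3 + n2 * n3) = 0 := by linear_combination hN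
    linarith
  set s := n1 + n2 + n3 with hs
  have e2 : m1 * m2 + m1 * m3 + m2 * m3 = s := by rw [hm2, hn2]; ring
  have q1 : n1 * n2 * n3 = n1 ^ 2 * (n1 - s) := by rw [hs]; linear_combination n1 * hn2
  have q2 : n1 * n2 * n3 = n2 ^ 2 * (n2 - s) := by rw [hs]; linear_combination n2 * hn2
  have q3 : n1 * n2 * n3 = n3 ^ 2 * (n3 - s) := by rw [hs]; linear_combination n3 * hn2
  by_cases c1 : n1 * s < 0
  · exact root_case m1 m2 m3 n1 s _ p1 e2 pp q1 c1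
  by_cases c2 : n2 * s < 0
  · exact root_case m1 m2 m3 n2 s _ p1 e2 pp q2 c2
  by_cases c3 : n3 * s < 0
  · exact root_case m1 m2 m3 n3 s _ p1 e2 pp q3 c3
  push Not at c1 c2 c3
  have a1 : 0 < n1 ^ 2 := by positivity
  have a2 : 0 < n2 ^ 2 := by positivity
  have a3 : 0 < n3 ^ 2 := by positivity
  have hs2 : s ^ 2 = n1 ^ 2 + n2 ^ 2 + n3 ^ 2 := by rw [hs]; linear_combination 2 * hn2
  have hspos : 0 < s ^ 2 := by linarith
  have hs0 : s ≠ 0 := by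
    intro h; rw [h] at hspos; simp at hspos
  have b1 : 0 < n1 * s := lt_of_le_of_ne c1 (Ne.symm (mul_ne_zero h1 hs0))
  have b2 : 0 < n2 * s := lt_of_le_of_ne c2 (Ne.symm (mul_ne_zero h2 hs0))
  have b3 : 0 < n3 * s := lt_of_le_of_ne c3 (Ne.symm (mul_ne_zero h3 hs0))
  have : 0 < (n1 * s) * (n2 * s) + (n1 * s) * (n3 * s) + (n2 * s) * (n3 * s) := by positivity
  have h0 : (n1 * s) * (n2 * s) + (n1 * s) * (n3 * s) + (n2 * s) * (n3 * s) = 0 := by
    linear_combination s ^ 2 * hn2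
  linarith

/-- No 3 by 3 integer matrix with all entries nonzero has determinant one together with
its entrywise square and its entrywise cube. -/
theorem result :
    ¬ ∃ A : Matrix (Fin 3) (Fin 3) ℤ, (∀ i j, A i j ≠ 0) ∧ A.det = 1 ∧
      (A.map (fun x => x ^ 2)).det = 1 ∧ (A.map (fun x => x ^ 3)).det = 1 := by
  rintro ⟨A, h0, h1, h2, h3⟩
  rw [Matrix.det_fin_three] at h1 h2 h3
  simp only [Matrix.map_apply] at h2 h3
  apply key (A 0 0 * A 1 1 * A 2 2) (A 0 1 * A 1 2 * A 2 0) (A 0 2 * A 1 0 * A 2 1)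
    (A 0 0 * A 1 2 * A 2 1) (A 0 1 * A 1 0 * A 2 2) (A 0 2 * A 1 1 * A 2 0)
  · exact mul_ne_zero (mul_ne_zero (h0 _ _) (h0 _ _)) (h0 _ _)
  · exact mul_ne_zero (mul_ne_zero (h0 _ _) (h0 _ _)) (h0 _ _)
  · exact mul_ne_zero (mul_ne_zero (h0 _ _) (h0 _ _)) (h0 _ _)
  · linear_combination h1
  · linear_combination h2
  · linear_combination h3
  · ring

end Pool.Agent.Results.MP_0f7e3e_nt.NoMatrix
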